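import Mathlib

set_option autoImplicit false
set_option linter.all false

noncomputable section

namespace Pool.Agent.H156R3

open Filter Topology Set

/-! ## Paratopological group topologies from a filter at zero -/

section ParTop

variable {A : Type} [AddCommGroup A]

structure IsParBase (F : Filter A) : Prop where
  zero : ∀ U ∈ F, (0 : A) ∈ U
  add : ∀ U ∈ F, ∃ V ∈ F, ∀ x ∈ V, ∀ y ∈ V, x + y ∈ U

/-- the topology whose neighbourhoods of `x` are the translates by `x` of the members of `F` -/
def parTop (F : Filter A) : TopologicalSpace A where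
  IsOpen O := ∀ x ∈ O, {y | x + y ∈ O} ∈ F
  isOpen_univ := by intro x _; simp
  isOpen_inter := by
    intro s t hs ht x hx
    exact Filter.inter_mem (hs x hx.1) (ht x hx.2)
  isOpen_sUnion := by
    intro S hS x hx
    obtain ⟨t, htS, hxt⟩ := hx
    refine mem_of_superset (hS t htS x hxt) ?_
    intro y hy; exact ⟨t, htS, hy⟩

theorem mem_nhds_parTop {F : Filter A} (h : IsParBase F) (x : A) (U : Set A) :
    U ∈ @nhds A (parTop F) x ↔ {y | x + y ∈ U} ∈ F := by
  letI := parTop F
  constructor
  · intro hU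
    obtain ⟨V, hVU, hV, hxV⟩ := mem_nhds_iff.1 hU
    exact mem_of_superset (hV x hxV) (fun y hy => hVU hy)
  · intro hU
    refine mem_nhds_iff.2 ⟨{z | {y | z + y ∈ U} ∈ F}, ?_, ?_, hU⟩
    · intro z hz
      have := h.zero _ hz
      simpa using this
    · intro z hz
      obtain ⟨V, hV, hVV⟩ := h.add _ hz
      show {y | {w | (z + y) + w ∈ U} ∈ F} ∈ F
      filter_upwards [hV] with y hy
      filter_upwards [hV] with w hw
      have := hVV y hy w hw
      simpa [add_assoc] using this

theorem continuousAdd_parTop {F : Filter A} (h : IsParBase F) :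
    @ContinuousAdd A (parTop F) _ := by
  letI := parTop F
  refine ⟨continuous_iff_continuousAt.2 ?_⟩
  rintro ⟨x, y⟩
  intro U hU
  rw [mem_nhds_parTop h] at hU
  obtain ⟨V, hV, hVV⟩ := h.add _ hU
  rw [nhds_prod_eq, Filter.mem_map, mem_prod_iff]
  refine ⟨{v | v - x ∈ V}, (mem_nhds_parTop h _ _).2 (by simpa using hV),
    {v | v - y ∈ V}, (mem_nhds_parTop h _ _).2 (by simpa using hV), ?_⟩
  rintro ⟨u, v⟩ ⟨hu, hv⟩
  have := hVV _ hu _ hv
  simp only [mem_ofPred_eq] at this
  simp only [mem_preimage]
  convert this using 1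
  abel

end ParTop

/-! ## The extension of a Sigma-product -/

section SG

variable (J C A : Type) [AddCommGroup C] [AddCommGroup A]

/-- functions with countable support -/
def Sig : AddSubgroup (J → C) where
  carrier := {x | {j | x j ≠ 0}.Countable}
  zero_mem' := by simp
  add_mem' := by
    intro x y hx hy
    refine (hx.union hy).mono ?_
    intro j hj
    by_contra h
    simp only [mem_union, mem_ofPred_eq, not_or, not_not] at h
    exact hj (by simp [h.1, h.2])
  neg_mem' := by
    intro x hx
    simpa using hx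

variable {J C A}

/-- the group of all pairs (function with countable support, element of `A`) -/
def SG (J C A : Type) [AddCommGroup C] [AddCommGroup A] (_φ : A →+ C) : Type := Sig J C × A

variable (φ : A →+ C)

instance : AddCommGroup (SG J C A φ) := inferInstanceAs (AddCommGroup (Sig J C × A))

/-- constructor -/
def mkSG (s : Sig J C) (a : A) : SG J C A φ := (s, a)

/-- the coordinate in `A` -/
def hh : SG J C A φ →+ A := AddMonoidHom.snd (Sig J C) A

/-- the function `s + const (φ a)` -/
def tot : SG J C A φ →+ (J → C) where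
  toFun g := (g.1 : J → C) + fun _ => φ g.2
  map_zero' := by
    show ((0 : Sig J C) : J → C) + (fun _ => φ 0) = 0
    ext j; simp
  map_add' := by
    intro g g'
    show (((g.1 + g'.1 : Sig J C)) : J → C) + (fun _ => φ (g.2 + g'.2)) = _
    ext j
    simp only [AddSubgroup.coe_add, Pi.add_apply, map_add]
    abel

def emb : SG J C A φ →+ (J → C) × A := (tot φ).prod (hh φ)

instance [TopologicalSpace C] [TopologicalSpace A] : TopologicalSpace (SG J C A φ) :=
  TopologicalSpace.induced (emb φ) inferInstance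

/-- the element with `A`-coordinate `a` whose total function is `x` on `N` -/
def pt (N : Set J) (hN : N.Countable) (x : J → C) (a : A) : SG J C A φ :=
  letI := Classical.decPred (fun j => j ∈ N)
  (⟨fun j => if j ∈ N then x j - φ a else 0, by
    refine hN.mono ?_
    intro j hj
    by_contra h
    exact hj (by simp [h])⟩, a)

@[simp] theorem hh_pt (N : Set J) (hN : N.Countable) (x : J → C) (a : A) :
    hh φ (pt φ N hN x a) = a := rfl

theorem tot_pt_of_mem (N : Set J) (hN : N.Countable) (x : J → C) (a : A) {j : J} (hj : j ∈ N) :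
    tot φ (pt φ N hN x a) j = x j := by
  classical
  show (if j ∈ N then x j - φ a else 0) + φ a = x j
  simp [hj]

theorem tot_pt_of_notMem (N : Set J) (hN : N.Countable) (x : J → C) (a : A) {j : J}
    (hj : j ∉ N) : tot φ (pt φ N hN x a) j = φ a := by
  classical
  show (if j ∈ N then x j - φ a else 0) + φ a = φ a
  simp [hj]

theorem tot_injective [Uncountable J] (hφ : Function.Injective φ) :
    Function.Injective (tot φ : SG J C A φ → (J → C)) := by
  intro g g' h
  obtain ⟨s, a⟩ := g
  obtain ⟨s', a'⟩ := g'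
  have h1 : ∀ j, (s : J → C) j + φ a = (s' : J → C) j + φ a' := fun j => congrFun h j
  have hc : ({j | (s : J → C) j ≠ 0} ∪ {j | (s' : J → C) j ≠ 0}).Countable := s.2.union s'.2
  obtain ⟨j, hj⟩ : ∃ j, j ∉ ({j | (s : J → C) j ≠ 0} ∪ {j | (s' : J → C) j ≠ 0}) := by
    by_contra hcon
    push Not at hcon
    have : (Set.univ : Set J).Countable := hc.mono (fun j _ => hcon j)
    exact not_countable (α := J) (countable_univ_iff.1 this)
  simp only [mem_union, mem_ofPred_eq, not_or, not_not] at hj
  have ha : a = a' := by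
    apply hφ
    have := h1 j
    simpa [hj.1, hj.2] using this
  subst ha
  have hs : s = s' := by
    apply Subtype.ext
    ext j
    have := h1 j
    simpa using this
  subst hs
  rfl

variable [TopologicalSpace C] [TopologicalSpace A]

theorem isInducing_emb : IsInducing (emb φ : SG J C A φ → (J → C) × A) := ⟨rfl⟩

theorem nhds_SG (g : SG J C A φ) :
    𝓝 g = comap (emb φ) (𝓝 (tot φ g) ×ˢ 𝓝 (hh φ g)) := by
  rw [(isInducing_emb φ).nhds_eq_comap, ← nhds_prod_eq]
  rfl

theorem tendsto_SG {α : Type*} {F : Filter α} {u : α → SG J C A φ} {g : SG J C A φ} :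
    Tendsto u F (𝓝 g) ↔ Tendsto (fun k => tot φ (u k)) F (𝓝 (tot φ g)) ∧
      Tendsto (fun k => hh φ (u k)) F (𝓝 (hh φ g)) := by
  rw [nhds_SG, tendsto_comap_iff, tendsto_prod_iff']
  rfl

theorem mem_nhds_SG {g : SG J C A φ} {U : Set (SG J C A φ)} :
    U ∈ 𝓝 g ↔ ∃ W : Set (J → C), IsOpen W ∧ tot φ g ∈ W ∧ ∃ O ∈ 𝓝 (hh φ g),
      ∀ g', tot φ g' ∈ W → hh φ g' ∈ O → g' ∈ U := by
  rw [nhds_SG, mem_comap]
  constructor
  · rintro ⟨T, hT, hTU⟩
    obtain ⟨W, hW, O, hO, hWO⟩ := mem_prod_iff.1 hT
    obtain ⟨W', hW'W, hW', hg⟩ := mem_nhds_iff.1 hW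
    refine ⟨W', hW', hg, O, hO, ?_⟩
    intro g' h1 h2
    exact hTU (hWO ⟨hW'W h1, h2⟩)
  · rintro ⟨W, hW, hg, O, hO, h⟩
    refine ⟨W ×ˢ O, prod_mem_prod (hW.mem_nhds hg) hO, ?_⟩
    rintro g' ⟨h1, h2⟩
    exact h g' h1 h2

instance continuousAdd_SG [ContinuousAdd C] [ContinuousAdd A] : ContinuousAdd (SG J C A φ) :=
  (isInducing_emb φ).continuousAdd (emb φ)

theorem continuous_tot : Continuous (tot φ : SG J C A φ → (J → C)) := by
  have h := (isInducing_emb (J := J) φ).continuous
  exact (continuous_fst (X := J → C) (Y := A)).comp h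

theorem continuous_hh : Continuous (hh φ : SG J C A φ → A) := by
  have h := (isInducing_emb (J := J) φ).continuous
  exact (continuous_snd (X := J → C) (Y := A)).comp h

theorem t2_SG [Uncountable J] [T2Space C] (hφ : Function.Injective φ) :
    T2Space (SG J C A φ) :=
  T2Space.of_injective_continuous (tot_injective φ hφ) (continuous_tot φ)

/-- every coset of the Sigma-product is dense -/
theorem exists_pt_mem {W : Set (J → C)} (hW : IsOpen W) {x : J → C} (hx : x ∈ W) (a : A) :
    ∃ g : SG J C A φ, hh φ g = a ∧ tot φ g ∈ W := by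
  obtain ⟨I, u, hu, hI⟩ := isOpen_pi_iff.1 hW x hx
  refine ⟨pt φ (I : Set J) I.countable_toSet x a, rfl, hI ?_⟩
  intro j hj
  rw [tot_pt_of_mem φ _ _ _ _ hj]
  exact (hu j hj).2

/-- the inversion is discontinuous as soon as it is so in `A` -/
theorem not_continuousNeg_SG
    (hA : ∃ O ∈ 𝓝 (0 : A), ∀ O' ∈ 𝓝 (0 : A), ∃ a ∈ O', -a ∉ O) :
    ¬ Continuous (fun g : SG J C A φ => -g) := by
  intro hc
  obtain ⟨O, hO, hO'⟩ := hA
  have h1 : {g : SG J C A φ | hh φ (-g) ∈ O} ∈ 𝓝 (0 : SG J C A φ) := by
    have h2 : ContinuousAt (fun g : SG J C A φ => hh φ (-g)) 0 :=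
      ((continuous_hh φ).comp hc).continuousAt
    apply h2
    simpa using hO
  obtain ⟨W, hW, h0W, O', hO'', hWO⟩ := (mem_nhds_SG φ).1 h1
  rw [map_zero] at hO''
  obtain ⟨a, ha, hna⟩ := hO' O' hO''
  obtain ⟨g, hga, hgW⟩ := exists_pt_mem φ hW h0W a
  have := hWO g hgW (by rw [hga]; exact ha)
  simp only [mem_ofPred_eq, map_neg, hga] at this
  exact hna this

/-- convergence along an ultrafilter -/
theorem exists_tendsto [CompactSpace C] [T1Space C] [ContinuousAdd C] (b : ℕ → SG J C A φ)
    (U : Ultrafilter ℕ) (a : A) (h1 : Tendsto (fun k => hh φ (b k)) U (𝓝 a))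
    (h2 : Tendsto (fun k => φ (hh φ (b k))) U (𝓝 (φ a))) :
    ∃ x : SG J C A φ, Tendsto b U (𝓝 x) := by
  classical
  -- the sequence of the countably supported parts
  let s : ℕ → (J → C) := fun k => ((b k).1 : J → C)
  let N : Set J := ⋃ k, {j | s k j ≠ 0}
  have hN : N.Countable := countable_iUnion fun k => (b k).1.2
  let K : Set (J → C) := {x | ∀ j, j ∉ N → x j = 0}
  have hKc : IsClosed K := by
    have : K = ⋂ j, ⋂ (_ : j ∉ N), {x : J → C | x j = 0} := by
      ext x; simp [K]
    rw [this]
    refine isClosed_iInter fun j => isClosed_iInter fun _ => ?_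
    exact isClosed_singleton.preimage (continuous_apply j)
  have hK : IsCompact K := hKc.isCompact
  have hsK : ∀ k, s k ∈ K := by
    intro k j hj
    by_contra h
    exact hj (mem_iUnion.2 ⟨k, h⟩)
  obtain ⟨x, hxK, hx⟩ := hK.ultrafilter_le_nhds (U.map s) (by
    rw [le_principal_iff]
    exact Filter.mem_map.2 (Filter.univ_mem' hsK))
  have hxs : x ∈ Sig J C := by
    refine hN.mono ?_
    intro j hj
    by_contra h
    exact hj (hxK j h)
  refine ⟨mkSG φ ⟨x, hxs⟩ a, ?_⟩
  rw [tendsto_SG]
  refine ⟨?_, h1⟩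
  have h3 : Tendsto s U (𝓝 x) := hx
  have h4 : Tendsto (fun k => (fun _ : J => φ (hh φ (b k)))) U (𝓝 (fun _ : J => φ a)) :=
    tendsto_pi_nhds.2 fun _ => h2
  exact h3.add h4

end SG

/-! ## Countable pracompactness -/

/-- `X` is countably pracompact: there is a dense `D` such that every infinite subset of `D` has an
accumulation point in `X`. -/
def CP (X : Type) [TopologicalSpace X] : Prop :=
  ∃ D : Set X, Dense D ∧ ∀ B : Set X, B ⊆ D → B.Infinite →
    ∃ x : X, ∀ U ∈ 𝓝 x, (U ∩ B).Infinite

theorem infinite_of_tendsto {X : Type} [TopologicalSpace X] {B : Set X} {b : ℕ → X}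
    (hb : Function.Injective b) (hbB : ∀ k, b k ∈ B) {x : X}
    (h : Tendsto b (hyperfilter ℕ) (𝓝 x)) : ∀ U ∈ 𝓝 x, (U ∩ B).Infinite := by
  intro U hU
  have h1 : b ⁻¹' U ∈ (hyperfilter ℕ : Filter ℕ) := h hU
  have h2 : (b ⁻¹' U).Infinite := by
    intro hfin
    exact notMem_hyperfilter_of_finite hfin h1
  refine (h2.image hb.injOn).mono ?_
  rintro _ ⟨k, hk, rfl⟩
  exact ⟨hk, hbB k⟩

theorem cp_SG {J C A : Type} [AddCommGroup C] [AddCommGroup A] (φ : A →+ C)
    [TopologicalSpace C] [TopologicalSpace A] [CompactSpace C] [T1Space C] [ContinuousAdd C]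
    (A' : Set A) (hd : Dense A')
    (h1 : ∀ O ∈ 𝓝 (0 : A), (A' \ O).Finite)
    (h2 : ∀ W ∈ 𝓝 (0 : C), {a ∈ A' | φ a ∉ W}.Finite) : CP (SG J C A φ) := by
  classical
  refine ⟨{g | hh φ g ∈ A'}, ?_, ?_⟩
  · intro g
    rw [mem_closure_iff_nhds]
    intro U hU
    obtain ⟨W, hW, hgW, O, hO, hWO⟩ := (mem_nhds_SG φ).1 hU
    obtain ⟨a, haO, haA⟩ := mem_closure_iff_nhds.1 (hd (hh φ g)) O hO
    obtain ⟨g', hg'a, hg'W⟩ := exists_pt_mem φ hW hgW a
    exact ⟨g', hWO g' hg'W (by rw [hg'a]; exact haO), by simpa [hg'a] using haA⟩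
  · intro B hBD hB
    by_cases hfib : ∃ a, (B ∩ {g | hh φ g = a}).Infinite
    · obtain ⟨a, ha⟩ := hfib
      let e := ha.natEmbedding
      let b : ℕ → SG J C A φ := fun k => (e k : SG J C A φ)
      have hb : Function.Injective b := Subtype.val_injective.comp e.injective
      have hbB : ∀ k, b k ∈ B := fun k => (e k).2.1
      have hba : ∀ k, hh φ (b k) = a := fun k => (e k).2.2
      obtain ⟨x, hx⟩ := exists_tendsto φ b (hyperfilter ℕ) a
        (by simp only [hba]; exact tendsto_const_nhds)
        (by simp only [hba]; exact tendsto_const_nhds)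
      exact ⟨x, infinite_of_tendsto hb hbB hx⟩
    · push Not at hfib
      have himg : (hh φ '' B).Infinite := by
        intro hfin
        apply hB
        have : B = ⋃ a ∈ hh φ '' B, (B ∩ {g | hh φ g = a}) := by
          ext g
          simp only [mem_iUnion, mem_inter_iff, mem_ofPred_eq, exists_prop, mem_image]
          constructor
          · intro hg
            exact ⟨hh φ g, ⟨g, hg, rfl⟩, hg, rfl⟩
          · rintro ⟨_, _, hg, _⟩
            exact hg
        rw [this]
        exact hfin.biUnion fun a _ => by simpa using hfib a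
      let e := himg.natEmbedding
      have he : ∀ k, ∃ g ∈ B, hh φ g = (e k : A) := fun k => (e k).2
      choose b hbB hbe using he
      have hb : Function.Injective b := by
        intro k l hkl
        apply e.injective
        apply Subtype.ext
        rw [← hbe k, ← hbe l, hkl]
      have heA : ∀ k, (e k : A) ∈ A' := by
        intro k
        rw [← hbe k]
        exact hBD (hbB k)
      have hinj : Function.Injective (fun k => (e k : A)) :=
        Subtype.val_injective.comp e.injective
      have key : ∀ S : Set A, (A' \ S).Finite → {k | (e k : A) ∈ S} ∈ (hyperfilter ℕ : Filter ℕ) := by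
        intro S hS
        have hfin : {k | (e k : A) ∈ S}ᶜ.Finite := by
          refine Set.Finite.of_finite_image (hS.subset ?_) hinj.injOn
          rintro _ ⟨k, hk, rfl⟩
          exact ⟨heA k, hk⟩
        have := hfin.compl_mem_hyperfilter
        simpa using this
      obtain ⟨x, hx⟩ := exists_tendsto φ b (hyperfilter ℕ) 0
        (by
          simp only [hbe]
          intro O hO
          exact key O (h1 O hO))
        (by
          simp only [hbe, map_zero]
          intro W hW
          have := key {a | φ a ∈ W} (by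
            refine (h2 W hW).subset ?_
            rintro a ⟨ha, ha'⟩
            exact ⟨ha, ha'⟩)
          exact this)
      exact ⟨x, infinite_of_tendsto hb hbB hx⟩

end Pool.Agent.H156R3
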