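import Pool.Agent.H156R3.Base

set_option autoImplicit false
set_option linter.all false

noncomputable section

namespace Pool.Agent.H156R3

open Filter Topology Set

/-- small open sets of a product of compact Hausdorff spaces depending on finitely many
coordinates -/
theorem shrink {J C : Type} [TopologicalSpace C] [CompactSpace C] [T2Space C]
    {W : Set (J → C)} (hW : IsOpen W) {y : J → C} (hy : y ∈ W) :
    ∃ W' : Set (J → C), IsOpen W' ∧ y ∈ W' ∧ closure W' ⊆ W ∧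
      ∃ N : Finset J, ∀ z ∈ W', ∀ z' : J → C, (∀ j ∈ N, z' j = z j) → z' ∈ W' := by
  obtain ⟨t, ht, htc, htW⟩ := exists_mem_nhds_isClosed_subset (hW.mem_nhds hy)
  obtain ⟨I, u, hu, hI⟩ := isOpen_pi_iff.1 (isOpen_interior (s := t)) y (mem_interior_iff_mem_nhds.2 ht)
  refine ⟨Set.pi I u, isOpen_set_pi I.finite_toSet (fun j hj => (hu j hj).1), ?_, ?_, I, ?_⟩
  · intro j hj
    exact (hu j hj).2
  · refine (closure_minimal ?_ htc).trans htW
    exact hI.trans interior_subset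
  · intro z hz z' hz' j hj
    rw [hz' j hj]
    exact hz j hj

section

variable {J C A : Type} [AddCommGroup C] [AddCommGroup A] (φ : A →+ C)
  [TopologicalSpace C] [TopologicalSpace A] [CompactSpace C] [T2Space C]
  (P : Set A) (h0 : (0 : A) ∈ P) (hadd : ∀ x ∈ P, ∀ y ∈ P, x + y ∈ P)
  (hP : ∀ (x : A) (U : Set A), U ∈ 𝓝 x ↔ ∀ y ∈ P, x + y ∈ U)
  (hub : ∀ s : ℕ → A, ∃ b, ∀ n, b - s n ∈ P)

include hP in
theorem step (x : SG J C A φ) (W : Set (J → C)) (hW : IsOpen W) (hx : tot φ x ∈ W)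
    (D : Set (SG J C A φ)) (hDo : IsOpen D) (hDd : Dense D) :
    ∃ (x' : SG J C A φ) (W' : Set (J → C)), IsOpen W' ∧ tot φ x' ∈ W' ∧ closure W' ⊆ W ∧
      (∃ N : Finset J, ∀ z ∈ W', ∀ z' : J → C, (∀ j ∈ N, z' j = z j) → z' ∈ W') ∧
      hh φ x' - hh φ x ∈ P ∧
      ∀ g, tot φ g ∈ W' → hh φ g - hh φ x' ∈ P → g ∈ D := by
  have hV : {g | tot φ g ∈ W ∧ hh φ g - hh φ x ∈ P} ∈ 𝓝 x := by
    refine (mem_nhds_SG φ).2 ⟨W, hW, hx, {a | a - hh φ x ∈ P}, (hP _ _).2 ?_, ?_⟩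
    · intro y hy
      simpa using hy
    · intro g' h1 h2
      exact ⟨h1, h2⟩
  obtain ⟨x', ⟨hx'W, hx'P⟩, hx'D⟩ := mem_closure_iff_nhds.1 (hDd x) _ hV
  obtain ⟨W1, hW1, hx'W1, O1, hO1, h1⟩ := (mem_nhds_SG φ).1 (hDo.mem_nhds hx'D)
  obtain ⟨W', hW', hx'W', hcl, hN⟩ := shrink (hW1.inter hW) ⟨hx'W1, hx'W⟩
  refine ⟨x', W', hW', hx'W', hcl.trans inter_subset_right, hN, hx'P, ?_⟩
  intro g hg hgP
  apply h1 g (hcl (subset_closure hg)).1
  have := (hP _ _).1 hO1 _ hgP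
  simpa using this

include h0 hadd hP hub in
theorem baire_SG : BaireSpace (SG J C A φ) := by
  classical
  refine ⟨fun f hfo hfd => ?_⟩
  intro g0
  rw [mem_closure_iff_nhds]
  intro U hU
  obtain ⟨W00, hW00, hg0W00, O0, hO0, hU0⟩ := (mem_nhds_SG φ).1 hU
  obtain ⟨W0, hW0, hg0W0, hcl0, hN0⟩ := shrink hW00 hg0W00
  let Good : SG J C A φ × Set (J → C) → Prop := fun q => IsOpen q.2 ∧ tot φ q.1 ∈ q.2 ∧
    ∃ N : Finset J, ∀ z ∈ q.2, ∀ z' : J → C, (∀ j ∈ N, z' j = z j) → z' ∈ q.2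
  have hstep : ∀ (n : ℕ) (q : SG J C A φ × Set (J → C)), Good q →
      ∃ q' : SG J C A φ × Set (J → C), Good q' ∧ (closure q'.2 ⊆ q.2 ∧
        hh φ q'.1 - hh φ q.1 ∈ P ∧
        ∀ g, tot φ g ∈ q'.2 → hh φ g - hh φ q'.1 ∈ P → g ∈ f n) := by
    rintro n ⟨x, W⟩ ⟨hW, hx, hN⟩
    obtain ⟨x', W', h1, h2, h3, h4, h5, h6⟩ := step φ P hP x W hW hx (f n) (hfo n) (hfd n)
    exact ⟨(x', W'), ⟨h1, h2, h4⟩, h3, h5, h6⟩
  choose! F hFG hF using hstep
  let seq : ℕ → SG J C A φ × Set (J → C) := fun n => Nat.rec (g0, W0) (fun n q => F n q) n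
  have hseq0 : seq 0 = (g0, W0) := rfl
  have hseqs : ∀ n, seq (n + 1) = F n (seq n) := fun n => rfl
  have hgood : ∀ n, Good (seq n) := by
    intro n
    induction n with
    | zero => exact ⟨hW0, hg0W0, hN0⟩
    | succ n ih => rw [hseqs]; exact hFG n _ ih
  have hR : ∀ n, closure (seq (n + 1)).2 ⊆ (seq n).2 ∧
      hh φ (seq (n + 1)).1 - hh φ (seq n).1 ∈ P ∧
      ∀ g, tot φ g ∈ (seq (n + 1)).2 → hh φ g - hh φ (seq (n + 1)).1 ∈ P → g ∈ f n := by
    intro n
    rw [hseqs]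
    exact hF n _ (hgood n)
  obtain ⟨y, hy⟩ : (⋂ n, closure (seq n).2).Nonempty := by
    refine IsCompact.nonempty_iInter_of_sequence_nonempty_isCompact_isClosed _ ?_ ?_ ?_ ?_
    · intro n
      exact (hR n).1.trans subset_closure
    · intro n
      exact ⟨_, subset_closure (hgood n).2.1⟩
    · exact isClosed_closure.isCompact
    · intro n
      exact isClosed_closure
  rw [mem_iInter] at hy
  have hyW : ∀ n, y ∈ (seq n).2 := fun n => (hR n).1 (hy (n + 1))
  have hNn : ∀ n, ∃ N : Finset J, ∀ z ∈ (seq n).2, ∀ z' : J → C, (∀ j ∈ N, z' j = z j) →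
      z' ∈ (seq n).2 := fun n => (hgood n).2.2
  choose N hN using hNn
  have hNc : (⋃ n, (N n : Set J)).Countable := countable_iUnion fun n => (N n).countable_toSet
  obtain ⟨b, hb⟩ := hub (fun n => hh φ (seq n).1)
  let g := pt φ (⋃ n, (N n : Set J)) hNc y b
  have hgW : ∀ n, tot φ g ∈ (seq n).2 := by
    intro n
    refine hN n y (hyW n) _ ?_
    intro j hj
    exact tot_pt_of_mem φ _ hNc y b (mem_iUnion.2 ⟨n, hj⟩)
  refine ⟨g, ?_, ?_⟩
  · apply hU0
    · exact hcl0 (subset_closure (hgW 0))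
    · have h7 := (hP _ _).1 hO0 _ (hb 0)
      have h8 : hh φ g0 + (b - hh φ (seq 0).1) = hh φ g := by
        rw [hseq0]
        show hh φ g0 + (b - hh φ g0) = b
        abel
      rwa [h8] at h7
  · rw [mem_iInter]
    intro n
    exact (hR n).2.2 g (hgW (n + 1)) (hb (n + 1))

include hP hub in
theorem two_SG [IsTopologicalAddGroup C] (U : ℕ → Set (SG J C A φ)) (hUo : ∀ n, IsOpen (U n))
    (hUne : ∀ n, (U n).Nonempty) (hUa : ∀ n, U (n + 1) ⊆ U n) :
    ∃ g, ∀ n, g ∈ closure {x | -x ∈ U n} := by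
  classical
  choose x hx using hUne
  have h1 : ∀ n, ∃ (W : Set (J → C)), tot φ (x n) ∈ W ∧
      (∃ N : Finset J, ∀ z ∈ W, ∀ z' : J → C, (∀ j ∈ N, z' j = z j) → z' ∈ W) ∧
      ∀ g, tot φ g ∈ W → hh φ g - hh φ (x n) ∈ P → g ∈ U n := by
    intro n
    obtain ⟨W, hW, hxW, O, hO, h⟩ := (mem_nhds_SG φ).1 ((hUo n).mem_nhds (hx n))
    obtain ⟨W', hW', hxW', hcl, hN⟩ := shrink hW hxW
    refine ⟨W', hxW', hN, ?_⟩
    intro g hg hgP
    apply h g (hcl (subset_closure hg))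
    have := (hP _ _).1 hO _ hgP
    simpa using this
  choose W hxW hNn hWU using h1
  choose N hN using hNn
  have hNc : (⋃ n, (N n : Set J)).Countable := countable_iUnion fun n => (N n).countable_toSet
  obtain ⟨y, _, hy⟩ := (isCompact_univ (X := J → C)).ultrafilter_le_nhds
    ((hyperfilter ℕ).map (fun n => -tot φ (x n))) (by simp)
  have hy' : Tendsto (fun n => -tot φ (x n)) (hyperfilter ℕ) (𝓝 y) := hy
  obtain ⟨c, hc⟩ := hub (fun n => hh φ (x n))
  let g := pt φ (⋃ n, (N n : Set J)) hNc y (-c)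
  let g' : ℕ → SG J C A φ := fun n => pt φ (⋃ n, (N n : Set J)) hNc (-tot φ (x n)) (-c)
  have hg'U : ∀ n, -g' n ∈ U n := by
    intro n
    apply hWU n
    · refine hN n _ (hxW n) _ ?_
      intro j hj
      have := tot_pt_of_mem φ _ hNc (-tot φ (x n)) (-c) (mem_iUnion.2 ⟨n, hj⟩)
      rw [map_neg, Pi.neg_apply]
      show -(tot φ (g' n) j) = _
      rw [this, Pi.neg_apply, neg_neg]
    · have : hh φ (-g' n) = c := by rw [map_neg]; exact neg_neg c
      rw [this]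
      exact hc n
  have hanti : ∀ m n, m ≤ n → U n ⊆ U m := by
    intro m n hmn
    induction n, hmn using Nat.le_induction with
    | base => exact subset_rfl
    | succ n _ ih => exact (hUa n).trans ih
  have hlim : Tendsto g' (hyperfilter ℕ) (𝓝 g) := by
    rw [tendsto_SG]
    refine ⟨?_, tendsto_const_nhds⟩
    rw [tendsto_pi_nhds]
    intro j
    by_cases hj : j ∈ ⋃ n, (N n : Set J)
    · have h2 : tot φ g j = y j := tot_pt_of_mem φ _ hNc y (-c) hj
      have h3 : ∀ n, tot φ (g' n) j = (-tot φ (x n)) j := fun n =>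
        tot_pt_of_mem φ _ hNc (-tot φ (x n)) (-c) hj
      rw [h2]
      simp only [h3]
      exact (tendsto_pi_nhds.1 hy') j
    · have h2 : tot φ g j = φ (-c) := tot_pt_of_notMem φ _ hNc y (-c) hj
      have h3 : ∀ n, tot φ (g' n) j = φ (-c) := fun n =>
        tot_pt_of_notMem φ _ hNc (-tot φ (x n)) (-c) hj
      rw [h2]
      simp only [h3]
      exact tendsto_const_nhds
  refine ⟨g, fun m => mem_closure_of_tendsto hlim ?_⟩
  have h5 : ∀ᶠ n in (hyperfilter ℕ : Filter ℕ), m ≤ n :=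
    Nat.hyperfilter_le_atTop (eventually_ge_atTop m)
  filter_upwards [h5] with n hn
  exact hanti m n hn (hg'U n)

end

/-! ## The cone -/

namespace Cone

open Ordinal

abbrev I : Type := (ω₁ : Ordinal.{0}).ToType

theorem exists_bound (S : Set I) (hS : S.Countable) : ∃ b : I, ∀ s ∈ S, s < b := by
  have : Countable S := hS.to_subtype
  let f : S → Ordinal.{0} := fun s => ((ToType.toOrd (s : I) : Iio ω₁) : Ordinal.{0})
  have hf : ∀ s, f s < ω₁ := fun s => (ToType.toOrd (s : I)).2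
  have h1 : ⨆ s, f s < ω₁ := Ordinal.iSup_lt_omega_one hf
  have h2 : (⨆ s, f s) + 1 < ω₁ := (Cardinal.isSuccLimit_omega 1).add_one_lt h1
  refine ⟨ToType.mk ⟨(⨆ s, f s) + 1, h2⟩, ?_⟩
  intro s hs
  rw [← OrderIso.symm_apply_lt]
  show (f ⟨s, hs⟩ : Ordinal.{0}) < (⨆ s, f s) + 1
  have h3 : f ⟨s, hs⟩ ≤ ⨆ s, f s := le_ciSup (Ordinal.bddAbove_of_small) _
  exact lt_of_le_of_lt h3 (by simp)

abbrev A : Type := I →₀ ℤ

abbrev C : Type := I → ℤ_[2]

def φ : A →+ C where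
  toFun f := fun i => ((f i : ℤ) : ℤ_[2])
  map_zero' := by ext i; simp
  map_add' := by intro f g; ext i; simp

theorem φ_inj : Function.Injective φ := by
  intro f g h
  ext i
  have := congrFun h i
  exact Int.cast_injective this

/-- nonnegative elements for the antilexicographic order -/
def P : Set A := {f | f = 0 ∨ ∃ i, 0 < f i ∧ ∀ j, i < j → f j = 0}

theorem zero_mem_P : (0 : A) ∈ P := Or.inl rfl

theorem add_mem_P : ∀ x ∈ P, ∀ y ∈ P, x + y ∈ P := by
  rintro x (rfl | ⟨i, hi, hi'⟩) y (rfl | ⟨k, hk, hk'⟩)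
  · left; simp
  · right; exact ⟨k, by simpa using hk, by simpa using hk'⟩
  · right; exact ⟨i, by simpa using hi, by simpa using hi'⟩
  · right
    rcases lt_trichotomy i k with h | h | h
    · refine ⟨k, ?_, ?_⟩
      · rw [Finsupp.add_apply, hi' k h, zero_add]; exact hk
      · intro j hj
        rw [Finsupp.add_apply, hi' j (h.trans hj), hk' j hj, zero_add]
    · subst h
      refine ⟨i, ?_, ?_⟩
      · rw [Finsupp.add_apply]; exact add_pos hi hk
      · intro j hj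
        rw [Finsupp.add_apply, hi' j hj, hk' j hj, zero_add]
    · refine ⟨i, ?_, ?_⟩
      · rw [Finsupp.add_apply, hk' i h, add_zero]; exact hi
      · intro j hj
        rw [Finsupp.add_apply, hi' j hj, hk' j (h.trans hj), zero_add]

def e (i : I) : A := Finsupp.single i 1

theorem e_mem_P (i : I) : e i ∈ P := by
  right
  refine ⟨i, by simp [e], ?_⟩
  intro j hj
  simp [e, Finsupp.single_apply, hj.ne]

theorem neg_e_notMem_P (i : I) : -e i ∉ P := by
  rintro (h | ⟨k, hk, hk'⟩)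
  · have := DFunLike.congr_fun h i
    simp [e] at this
  · by_cases hik : i = k
    · subst hik
      simp [e] at hk
    · simp [e, Finsupp.single_apply, hik] at hk

theorem exists_e_sub (s : ℕ → A) : ∃ i : I, ∀ n, e i - s n ∈ P := by
  obtain ⟨i, hi⟩ := exists_bound (⋃ n, ((s n).support : Set I))
    (countable_iUnion fun n => (s n).support.countable_toSet)
  refine ⟨i, fun n => ?_⟩
  have h1 : ∀ j, i ≤ j → s n j = 0 := by
    intro j hj
    by_contra hne
    have := hi j (mem_iUnion.2 ⟨n, by simpa using hne⟩)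
    exact absurd this (not_lt.2 hj)
  right
  refine ⟨i, ?_, ?_⟩
  · simp [e, h1 i le_rfl]
  · intro j hj
    simp [e, Finsupp.single_apply, hj.ne, h1 j hj.le]

theorem isParBase : IsParBase (𝓟 P) where
  zero U hU := hU zero_mem_P
  add U hU := ⟨P, mem_principal_self P, fun x hx y hy => hU (add_mem_P x hx y hy)⟩

instance instTop : TopologicalSpace A := parTop (𝓟 P)

theorem mem_nhds_A (x : A) (U : Set A) : U ∈ 𝓝 x ↔ ∀ y ∈ P, x + y ∈ U := by
  rw [mem_nhds_parTop isParBase]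
  rfl

instance : ContinuousAdd A := continuousAdd_parTop isParBase

theorem dense_e : Dense (range e) := by
  intro x
  rw [mem_closure_iff_nhds]
  intro U hU
  obtain ⟨i, hi⟩ := exists_e_sub (fun _ => x)
  refine ⟨e i, ?_, i, rfl⟩
  have := (mem_nhds_A x U).1 hU _ (hi 0)
  simpa using this

theorem finite_diff (O : Set A) (hO : O ∈ 𝓝 (0 : A)) : (range e \ O).Finite := by
  convert Set.finite_empty
  ext x
  simp only [mem_diff, mem_range, mem_empty_iff_false, iff_false, not_and, not_not]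
  rintro ⟨i, rfl⟩
  have := (mem_nhds_A 0 O).1 hO _ (e_mem_P i)
  simpa using this

theorem finite_φ (W : Set C) (hW : W ∈ 𝓝 (0 : C)) : {x ∈ range e | φ x ∉ W}.Finite := by
  obtain ⟨V, hVW, hV, h0V⟩ := mem_nhds_iff.1 hW
  obtain ⟨S, u, hu, hS⟩ := isOpen_pi_iff.1 hV 0 h0V
  refine (S.finite_toSet.image e).subset ?_
  rintro _ ⟨⟨i, rfl⟩, hi⟩
  refine ⟨i, ?_, rfl⟩
  by_contra hiS
  apply hi
  apply hVW
  apply hS
  intro j hj
  have hij : i ≠ j := by rintro rfl; exact hiS hj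
  have : φ (e i) j = 0 := by
    show ((e i j : ℤ) : ℤ_[2]) = 0
    simp [e, Finsupp.single_apply, hij]
  rw [this]
  exact (hu j hj).2

theorem neg_disc : ∃ O ∈ 𝓝 (0 : A), ∀ O' ∈ 𝓝 (0 : A), ∃ a ∈ O', -a ∉ O := by
  refine ⟨P, (mem_nhds_A _ _).2 (fun y hy => by simpa using hy), ?_⟩
  intro O' hO'
  obtain ⟨i, -⟩ := exists_e_sub (fun _ => 0)
  refine ⟨e i, ?_, neg_e_notMem_P i⟩
  have := (mem_nhds_A 0 O').1 hO' _ (e_mem_P i)
  simpa using this

end Cone

end Pool.Agent.H156R3
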