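import Mathlib

set_option autoImplicit false

namespace Pool.Agent.H156R3

open Topology Pointwise

/-- `X` is countably pracompact: there is a dense subset `D` such that every infinite `B ⊆ D` has
an accumulation point in `X`, i.e. a point all of whose neighbourhoods contain infinitely many
points of `B`. -/
def CountablyPracompact (X : Type) [TopologicalSpace X] : Prop :=
  ∃ D : Set X, Dense D ∧ ∀ B : Set X, B ⊆ D → B.Infinite →
    ∃ x : X, ∀ U ∈ 𝓝 x, (U ∩ B).Infinite

/-- `X` is pseudocompact (feebly compact): every locally finite family of nonempty open subsets of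
`X` is finite. -/
def Pseudocompact (X : Type) [TopologicalSpace X] : Prop :=
  ∀ (ι : Type) (U : ι → Set X), (∀ i, IsOpen (U i)) → (∀ i, (U i).Nonempty) →
    LocallyFinite U → Finite ι

/-- `G` is topologically periodic: for all `x` and all neighbourhoods `U` of the unit there is
`n ≥ 1` with `x ^ n ∈ U`. -/
def TopologicallyPeriodic (G : Type) [Group G] [TopologicalSpace G] : Prop :=
  ∀ x : G, ∀ U ∈ 𝓝 (1 : G), ∃ n : ℕ, 1 ≤ n ∧ x ^ n ∈ U

/-- `G` is left `ω`-precompact: for every neighbourhood `U` of the unit there is a countable `F`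
with `F * U = G`. -/
def LeftOmegaPrecompact (G : Type) [Group G] [TopologicalSpace G] : Prop :=
  ∀ U ∈ 𝓝 (1 : G), ∃ F : Set G, F.Countable ∧ F * U = Set.univ

/-- `G` is 2-pseudocompact: the closures of the inverses of the members of a decreasing sequence
of nonempty open sets have a common point. -/
def TwoPseudocompact (G : Type) [Group G] [TopologicalSpace G] : Prop :=
  ∀ U : ℕ → Set G, (∀ n, IsOpen (U n)) → (∀ n, (U n).Nonempty) → (∀ n, U (n + 1) ⊆ U n) →
    (⋂ n, closure (U n)⁻¹).Nonempty

/-- countably pracompact spaces are pseudocompact -/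
theorem CountablyPracompact.pseudocompact {X : Type} [TopologicalSpace X]
    (h : CountablyPracompact X) : Pseudocompact X := by
  obtain ⟨D, hD, h⟩ := h
  intro ι U hUo hUne hlf
  by_contra hinf
  rw [not_finite_iff_infinite] at hinf
  have hd : ∀ i, ∃ d, d ∈ U i ∧ d ∈ D := by
    intro i
    obtain ⟨d, hd1, hd2⟩ := hD.inter_open_nonempty (U i) (hUo i) (hUne i)
    exact ⟨d, hd1, hd2⟩
  choose d hdU hdD using hd
  have hBinf : (Set.range d).Infinite := by
    intro hfin
    -- some point belongs to infinitely many `U i`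
    have : ∃ x ∈ Set.range d, (d ⁻¹' {x}).Infinite := by
      by_contra hcon
      push Not at hcon
      have hu : (Set.univ : Set ι) = ⋃ x ∈ Set.range d, d ⁻¹' {x} := by
        ext i; simp
      have : (Set.univ : Set ι).Finite := by
        rw [hu]
        exact hfin.biUnion fun x hx => by simpa using hcon x hx
      exact Set.infinite_univ this
    obtain ⟨x, _, hx⟩ := this
    obtain ⟨V, hV, hVfin⟩ := hlf x
    apply hx
    refine hVfin.subset ?_
    intro i hi
    have : d i = x := hi
    exact ⟨x, by rw [← this]; exact hdU i, mem_of_mem_nhds hV⟩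
  obtain ⟨x, hx⟩ := h (Set.range d) (by rintro _ ⟨i, rfl⟩; exact hdD i) hBinf
  obtain ⟨V, hV, hVfin⟩ := hlf x
  apply hx V hV
  refine (hVfin.image d).subset ?_
  rintro _ ⟨hv, i, rfl⟩
  exact ⟨i, ⟨d i, hdU i, hv⟩, rfl⟩

end Pool.Agent.H156R3
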