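import Pool.Agent.H156R3.Cone
import Pool.Agent.H156R3.Defs

set_option autoImplicit false
set_option linter.all false

noncomputable section

namespace Pool.Agent.H156R3

open Filter Topology Set Pointwise

/-- the example, written multiplicatively -/
theorem example_cone : ∃ (G : Type) (_ : CommGroup G) (_ : TopologicalSpace G),
    ContinuousMul G ∧ T2Space G ∧ CountablyPracompact G ∧ Pseudocompact G ∧ BaireSpace G ∧
      TwoPseudocompact G ∧ ¬ ContinuousInv G := by
  let X := SG ℝ Cone.C Cone.A Cone.φ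
  have hadd : ContinuousAdd X := continuousAdd_SG Cone.φ
  have ht2 : T2Space X := t2_SG Cone.φ Cone.φ_inj
  have hcp : CountablyPracompact X :=
    cp_SG Cone.φ (range Cone.e) Cone.dense_e Cone.finite_diff Cone.finite_φ
  have hub : ∀ s : ℕ → Cone.A, ∃ b, ∀ n, b - s n ∈ Cone.P := by
    intro s
    obtain ⟨i, hi⟩ := Cone.exists_e_sub s
    exact ⟨_, hi⟩
  have hba : BaireSpace X :=
    baire_SG Cone.φ Cone.P Cone.zero_mem_P Cone.add_mem_P Cone.mem_nhds_A hub
  refine ⟨Multiplicative X, inferInstance, inferInstance, inferInstance, ?_, ?_, ?_, ?_, ?_, ?_⟩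
  · exact ht2
  · exact hcp
  · exact CountablyPracompact.pseudocompact (X := Multiplicative X) hcp
  · exact hba
  · intro U hUo hUne hUa
    obtain ⟨g, hg⟩ := two_SG (J := ℝ) Cone.φ Cone.P Cone.mem_nhds_A hub U hUo hUne hUa
    exact ⟨g, mem_iInter.2 hg⟩
  · intro hinv
    exact not_continuousNeg_SG (J := ℝ) Cone.φ Cone.neg_disc hinv.continuous_inv

end Pool.Agent.H156R3
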