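import Mathlib

set_option autoImplicit false
set_option linter.all false

open scoped Pointwise
open Filter Topology Set

noncomputable section

namespace Pool.Agent.H156R3.PM

/-! ## general facts on precompact groups -/

def Precompact (G : Type) [Group G] [TopologicalSpace G] : Prop :=
  ∀ U ∈ 𝓝 (1 : G), ∃ F : Finset G, (F : Set G) * U = Set.univ

theorem balanced {G : Type} [Group G] [TopologicalSpace G] [IsTopologicalGroup G]
    (hp : Precompact G) (V : Set G) (hV : V ∈ 𝓝 (1 : G)) :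
    ∃ U ∈ 𝓝 (1 : G), ∀ g : G, ∀ u ∈ U, g * u * g⁻¹ ∈ V := by
  obtain ⟨V1, hV1, hV1'⟩ := exists_nhds_one_split hV
  obtain ⟨V2, hV2, hV2'⟩ := exists_nhds_one_split hV1
  let W : Set G := (V2 ∩ V2⁻¹) ∩ V1
  have hW : W ∈ 𝓝 (1 : G) := inter_mem (inter_mem hV2 (inv_mem_nhds_one G hV2)) hV1
  obtain ⟨F, hF⟩ := hp W hW
  refine ⟨⋂ f ∈ F, {u | f⁻¹ * u * f ∈ W}, ?_, ?_⟩
  · refine (Filter.biInter_finset_mem F).2 fun f _ => ?_
    have hc : ContinuousAt (fun u : G => f⁻¹ * u * f) 1 :=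
      ((continuous_const.mul continuous_id).mul continuous_const).continuousAt
    apply hc
    simpa using hW
  · intro g u hu
    have hg : g⁻¹ ∈ (F : Set G) * W := by rw [hF]; trivial
    obtain ⟨f, hf, w, hw, hfw⟩ := hg
    have hg' : g = w⁻¹ * f⁻¹ := by
      rw [← mul_inv_rev]
      simp only at hfw
      rw [hfw, inv_inv]
    have hu' : f⁻¹ * u * f ∈ W := by
      have := mem_iInter₂.1 hu f hf
      exact this
    have h1 : w⁻¹ * (f⁻¹ * u * f) ∈ V1 := hV2' _ hw.1.2 _ hu'.1.1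
    have h2 : w⁻¹ * (f⁻¹ * u * f) * w ∈ V := hV1' _ h1 _ hw.2
    have h3 : g * u * g⁻¹ = w⁻¹ * (f⁻¹ * u * f) * w := by
      rw [hg']; group
    rw [h3]; exact h2

theorem pow_return {G : Type} [Group G] [TopologicalSpace G] [IsTopologicalGroup G]
    (hp : Precompact G) (t : G) (U : Set G) (hU : U ∈ 𝓝 (1 : G)) :
    ∃ k : ℕ, 1 ≤ k ∧ t ^ k ∈ U := by
  obtain ⟨V, hV, hV'⟩ := exists_nhds_one_split hU
  let W : Set G := V ∩ V⁻¹
  have hW : W ∈ 𝓝 (1 : G) := inter_mem hV (inv_mem_nhds_one G hV)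
  obtain ⟨F, hF⟩ := hp W hW
  have h : ∀ n : ℕ, ∃ f : F, ∃ w ∈ W, (f : G) * w = t ^ n := by
    intro n
    have : t ^ n ∈ (F : Set G) * W := by rw [hF]; trivial
    obtain ⟨f, hf, w, hw, hfw⟩ := this
    exact ⟨⟨f, hf⟩, w, hw, hfw⟩
  choose f w hw hfw using h
  obtain ⟨i, j, hij, hf⟩ := Finite.exists_ne_map_eq_of_infinite f
  have key : ∀ i j : ℕ, i < j → f i = f j → ∃ k : ℕ, 1 ≤ k ∧ t ^ k ∈ U := by
    intro i j hij hf
    refine ⟨j - i, by omega, ?_⟩
    have h1 : t ^ (j - i) = (w i)⁻¹ * w j := by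
      have h2 : t ^ i * t ^ (j - i) = t ^ j := by rw [← pow_add]; congr 1; omega
      have h3 : t ^ (j - i) = (t ^ i)⁻¹ * t ^ j := by rw [← h2]; group
      rw [h3, ← hfw i, ← hfw j, hf]; group
    rw [h1]
    exact hV' _ (hw i).2 _ (hw j).1
  rcases lt_or_gt_of_ne hij with h | h
  · exact key i j h hf
  · exact key j i h hf.symm

theorem precompact_induced {G K : Type} [Group G] [Group K] [TopologicalSpace K]
    [IsTopologicalGroup K] [CompactSpace K] (Ψ : G →* K) :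
    @Precompact G _ (TopologicalSpace.induced Ψ inferInstance) := by
  classical
  letI : TopologicalSpace G := TopologicalSpace.induced Ψ inferInstance
  intro U hU
  rw [nhds_induced, mem_comap, map_one] at hU
  obtain ⟨W, hW, hWU⟩ := hU
  obtain ⟨V, hV, hV'⟩ := exists_nhds_one_split hW
  let W' : Set K := V ∩ V⁻¹
  have hW' : W' ∈ 𝓝 (1 : K) := inter_mem hV (inv_mem_nhds_one K hV)
  obtain ⟨s, hs⟩ := CompactSpace.elim_nhds_subcover (fun x : K => {y | x⁻¹ * y ∈ W'}) (by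
    intro x
    have hc : ContinuousAt (fun y : K => x⁻¹ * y) x :=
      (continuous_const.mul continuous_id).continuousAt
    apply hc
    simpa using hW')
  let f : K → G := fun x => if h : ∃ g, x⁻¹ * Ψ g ∈ W' then h.choose else 1
  refine ⟨s.image f, ?_⟩
  rw [eq_univ_iff_forall]
  intro g
  have hg : Ψ g ∈ (⋃ x ∈ s, {y : K | x⁻¹ * y ∈ W'}) := by rw [hs]; trivial
  simp only [mem_iUnion, exists_prop] at hg
  obtain ⟨x, hxs, hx⟩ := hg
  have hx' : x⁻¹ * Ψ g ∈ W' := hx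
  have hex : ∃ g, x⁻¹ * Ψ g ∈ W' := ⟨g, hx'⟩
  have hfx : f x = hex.choose := dif_pos hex
  have hch := hex.choose_spec
  refine ⟨f x, by simpa using ⟨x, hxs, rfl⟩, (f x)⁻¹ * g, ?_, by simp⟩
  apply hWU
  show Ψ ((f x)⁻¹ * g) ∈ W
  rw [hfx, map_mul, map_inv]
  have h1 : (Ψ hex.choose)⁻¹ * Ψ g = (x⁻¹ * Ψ hex.choose)⁻¹ * (x⁻¹ * Ψ g) := by group
  rw [h1]
  exact hV' _ hch.2 _ hx'.1

/-! ## the affine group of a commutative ring -/

@[ext] structure Aff (R : Type) [CommRing R] where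
  b : R
  u : Rˣ

namespace Aff

variable {R S : Type} [CommRing R] [CommRing S]

instance : Mul (Aff R) := ⟨fun x y => ⟨x.b + x.u * y.b, x.u * y.u⟩⟩
instance : One (Aff R) := ⟨⟨0, 1⟩⟩
instance : Inv (Aff R) := ⟨fun x => ⟨-(((x.u⁻¹ : Rˣ) : R) * x.b), x.u⁻¹⟩⟩

@[simp] theorem mul_b (x y : Aff R) : (x * y).b = x.b + x.u * y.b := rfl
@[simp] theorem mul_u (x y : Aff R) : (x * y).u = x.u * y.u := rfl
@[simp] theorem one_b : (1 : Aff R).b = 0 := rfl
@[simp] theorem one_u : (1 : Aff R).u = 1 := rfl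
@[simp] theorem inv_b (x : Aff R) : (x⁻¹).b = -(((x.u⁻¹ : Rˣ) : R) * x.b) := rfl
@[simp] theorem inv_u (x : Aff R) : (x⁻¹).u = x.u⁻¹ := rfl

instance : Group (Aff R) := Group.ofLeftAxioms
  (by
    intro x y z
    ext
    · simp; ring
    · simp [mul_assoc])
  (by
    intro x
    ext
    · simp
    · simp)
  (by
    intro x
    ext
    · simp
    · simp)

def map (f : R →+* S) : Aff R →* Aff S where
  toFun x := ⟨f x.b, Units.map (f : R →* S) x.u⟩
  map_one' := by ext <;> simp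
  map_mul' x y := by ext <;> simp

@[simp] theorem map_b (f : R →+* S) (x : Aff R) : (map f x).b = f x.b := rfl
@[simp] theorem map_u (f : R →+* S) (x : Aff R) : (map f x).u = Units.map (f : R →* S) x.u := rfl

def equivProd : Aff R ≃ R × Rˣ where
  toFun x := (x.b, x.u)
  invFun p := ⟨p.1, p.2⟩
  left_inv _ := rfl
  right_inv _ := rfl

instance [Finite R] : Finite (Aff R) := Finite.of_equiv _ (equivProd (R := R)).symm

end Aff

/-! ## the ring `ℤ[1/2]` -/

abbrev Rg : Type := Localization.Away (2 : ℤ)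

def τ : Rgˣ := (IsLocalization.Away.algebraMap_isUnit (S := Rg) (2 : ℤ)).unit

theorem τ_val : (τ : Rg) = 2 := by
  have : ((IsLocalization.Away.algebraMap_isUnit (S := Rg) (2 : ℤ)).unit : Rg) =
    algebraMap ℤ Rg 2 := rfl
  show ((IsLocalization.Away.algebraMap_isUnit (S := Rg) (2 : ℤ)).unit : Rg) = 2
  rw [this]; simp

theorem isUnit_two {n : ℕ} (hn : Nat.Coprime 2 n) : IsUnit (Int.castRingHom (ZMod n) 2) := by
  have := (ZMod.isUnit_iff_coprime 2 n).2 hn
  simpa using this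

def red (n : ℕ) (hn : Nat.Coprime 2 n) : Rg →+* ZMod n :=
  IsLocalization.Away.lift (S := Rg) (2 : ℤ) (g := Int.castRingHom (ZMod n)) (isUnit_two hn)

theorem red_algebraMap (n : ℕ) (hn : Nat.Coprime 2 n) (m : ℤ) :
    red n hn (algebraMap ℤ Rg m) = (m : ZMod n) := by
  unfold red
  rw [IsLocalization.Away.lift_eq]
  rfl

theorem coprime_pow {l : ℕ} (hl : Nat.Coprime 2 l) (j : ℕ) : Nat.Coprime 2 (l ^ j) :=
  Nat.Coprime.pow_right j hl

theorem red_injective {l : ℕ} (hl : Nat.Coprime 2 l) (h1 : 1 < l) (x : Rg)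
    (h : ∀ j, red (l ^ j) (coprime_pow hl j) x = 0) : x = 0 := by
  obtain ⟨n, a, hna⟩ := IsLocalization.Away.surj (S := Rg) (2 : ℤ) x
  have ha : a = 0 := by
    by_contra hne
    have hdvd : ∀ j, ((l ^ j : ℕ) : ℤ) ∣ a := by
      intro j
      have h2 := congrArg (red (l ^ j) (coprime_pow hl j)) hna
      rw [map_mul, h j, zero_mul, red_algebraMap] at h2
      exact (ZMod.intCast_zmod_eq_zero_iff_dvd a (l ^ j)).1 h2.symm
    obtain ⟨j, hj⟩ : ∃ j, a.natAbs < l ^ j := ⟨a.natAbs, Nat.lt_pow_self h1⟩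
    have h3 := Int.natAbs_dvd_natAbs.2 (hdvd j)
    rw [Int.natAbs_natCast] at h3
    have h4 := Nat.le_of_dvd (Int.natAbs_pos.2 hne) h3
    omega
  rw [ha, map_zero] at hna
  have hu : IsUnit (algebraMap ℤ Rg 2 ^ n) :=
    (IsLocalization.Away.algebraMap_isUnit (S := Rg) (2 : ℤ)).pow n
  exact (hu.mul_left_eq_zero).1 hna

abbrev G : Type := Aff Rg

/-- the sets of the family -/
def E (k : ℕ) : Set G := {y | ∃ b : Rg, y = ⟨((2 : Rg) ^ k - 1) * b, 1⟩}

def x0 : G := ⟨1, 1⟩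

def t0 : G := ⟨0, τ⟩

theorem t0_pow (k : ℕ) : t0 ^ k = ⟨0, τ ^ k⟩ := by
  induction k with
  | zero => rfl
  | succ k ih =>
    rw [pow_succ, ih]
    ext
    · simp [t0]
    · simp [t0, pow_succ]

theorem commutator_eq (k : ℕ) (b : Rg) :
    t0 ^ k * ((⟨b, 1⟩ : G) * (t0 ^ k)⁻¹ * (⟨b, 1⟩ : G)⁻¹) = ⟨((2 : Rg) ^ k - 1) * b, 1⟩ := by
  rw [t0_pow]
  ext
  · have h1 : ((τ ^ k : Rgˣ) : Rg) * (((τ ^ k)⁻¹ : Rgˣ) : Rg) = 1 := Units.mul_inv _
    have h2 : ((τ ^ k : Rgˣ) : Rg) = 2 ^ k := by rw [Units.val_pow_eq_pow_val, τ_val]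
    simp only [Aff.mul_b, Aff.inv_b, Aff.inv_u, Aff.mul_u, Units.val_one, one_mul, inv_one,
      mul_zero, neg_zero, add_zero, zero_add]
    linear_combination b * h2 - b * h1
  · simp

theorem one_ne_zero_Rg : (1 : Rg) ≠ 0 := by
  intro h
  have h2 := congrArg (red 3 (by norm_num)) h
  rw [map_one, map_zero] at h2
  exact absurd h2 (by decide)

theorem x0_ne_one : x0 ≠ 1 := by
  intro h
  exact one_ne_zero_Rg (congrArg Aff.b h)

theorem part1 [TopologicalSpace G] [IsTopologicalGroup G] [T2Space G] (hp : Precompact G) :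
    ∃ k : ℕ, 1 ≤ k ∧ x0 ∉ closure (E k) := by
  obtain ⟨V, hV, hVc, hVx⟩ := exists_mem_nhds_isClosed_subset
    (isOpen_compl_singleton.mem_nhds (x0_ne_one.symm : (1 : G) ∈ ({x0}ᶜ : Set G)))
  obtain ⟨V1, hV1, hV1'⟩ := exists_nhds_one_split hV
  obtain ⟨U, hU, hU'⟩ := balanced hp V1 hV1
  obtain ⟨k, hk, hkU⟩ := pow_return hp t0 (V1 ∩ U⁻¹) (inter_mem hV1 (inv_mem_nhds_one G hU))
  refine ⟨k, hk, ?_⟩
  intro hx
  have hEV : E k ⊆ V := by
    rintro y ⟨b, rfl⟩
    rw [← commutator_eq]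
    refine hV1' _ hkU.1 _ (hU' _ _ hkU.2)
  exact hVx (closure_minimal hEV hVc hx) rfl

section
variable (l : ℕ) (hl : Nat.Coprime 2 l)

local instance (n : ℕ) : TopologicalSpace (Aff (ZMod n)) := ⊥
local instance (n : ℕ) : DiscreteTopology (Aff (ZMod n)) := ⟨rfl⟩

def Ψ : G →* ((j : ℕ) → Aff (ZMod (l ^ j))) :=
  Pi.monoidHom fun j => Aff.map (red (l ^ j) (coprime_pow hl j))

theorem Ψ_injective (h1 : 1 < l) : Function.Injective (Ψ l hl) := by
  intro g g' h
  have hj : ∀ j, Aff.map (red (l ^ j) (coprime_pow hl j)) g =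
      Aff.map (red (l ^ j) (coprime_pow hl j)) g' := fun j => congrFun h j
  have hb : g.b = g'.b := by
    rw [← sub_eq_zero]
    apply red_injective hl h1
    intro j
    rw [map_sub, sub_eq_zero]
    exact congrArg Aff.b (hj j)
  have hu : (g.u : Rg) = g'.u := by
    rw [← sub_eq_zero]
    apply red_injective hl h1
    intro j
    rw [map_sub, sub_eq_zero]
    have := congrArg (fun y => ((Aff.u y : (ZMod (l ^ j))ˣ) : ZMod (l ^ j))) (hj j)
    simpa using this
  ext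
  · exact hb
  · exact hu

include hl in
theorem exists_top [NeZero l] (h1 : 1 < l) : ∃ t : TopologicalSpace G,
    (@IsTopologicalGroup G t _ ∧ @T2Space G t ∧ @Precompact G _ t) ∧
      ∀ k : ℕ, IsCoprime ((2 : ℤ) ^ k - 1) (l : ℤ) → x0 ∈ @closure G t (E k) := by
  refine ⟨TopologicalSpace.induced (Ψ l hl) inferInstance, ⟨?_, ?_, ?_⟩, ?_⟩
  · exact topologicalGroup_induced (Ψ l hl)
  · letI : TopologicalSpace G := TopologicalSpace.induced (Ψ l hl) inferInstance
    exact T2Space.of_injective_continuous (Ψ_injective l hl h1) continuous_induced_dom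
  · exact precompact_induced (Ψ l hl)
  · intro k hk
    letI : TopologicalSpace G := TopologicalSpace.induced (Ψ l hl) inferInstance
    have hco : ∀ n : ℕ, ∃ a b : ℤ, a * ((2 : ℤ) ^ k - 1) + b * (l : ℤ) ^ n = 1 := by
      intro n
      have : IsCoprime ((2 : ℤ) ^ k - 1) ((l : ℤ) ^ n) := hk.pow_right
      exact this
    choose a b hab using hco
    let y : ℕ → G := fun n => ⟨((2 : Rg) ^ k - 1) * algebraMap ℤ Rg (a n), 1⟩
    have hy : Tendsto y atTop (𝓝 x0) := by
      rw [nhds_induced, tendsto_comap_iff, tendsto_pi_nhds]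
      intro j
      refine tendsto_const_nhds.congr' ?_
      filter_upwards [eventually_ge_atTop j] with n hn
      show Aff.map (red (l ^ j) (coprime_pow hl j)) x0 =
        Aff.map (red (l ^ j) (coprime_pow hl j)) (y n)
      ext
      · simp only [Aff.map_b, x0, y, map_one, map_mul, map_sub, map_pow]
        rw [red_algebraMap]
        have h2 : red (l ^ j) (coprime_pow hl j) 2 = 2 := by
          have := red_algebraMap (l ^ j) (coprime_pow hl j) 2
          simpa using this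
        rw [h2]
        have h3 := congrArg (Int.cast : ℤ → ZMod (l ^ j)) (hab n)
        push_cast at h3
        have h4 : ((l : ZMod (l ^ j)) ^ n) = 0 := by
          have h5 : ((l ^ n : ℕ) : ZMod (l ^ j)) = 0 :=
            (ZMod.natCast_eq_zero_iff _ _).2 (pow_dvd_pow l hn)
          simpa using h5
        rw [h4, mul_zero, add_zero] at h3
        linear_combination (-1 : ZMod (l ^ j)) * h3
      · simp [x0, y]
    refine mem_closure_of_tendsto hy (Eventually.of_forall fun n => ?_)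
    exact ⟨_, rfl⟩

end

theorem countable_G : Countable G := by
  have h1 : Countable Rg := by
    have hs : Function.Surjective (fun p : ℤ × (Submonoid.powers (2 : ℤ)) =>
        IsLocalization.mk' Rg p.1 p.2) := by
      intro z
      obtain ⟨x, y, hxy⟩ := IsLocalization.exists_mk'_eq (Submonoid.powers (2 : ℤ)) z
      exact ⟨(x, y), hxy⟩
    exact hs.countable
  have h2 : Countable Rgˣ := by
    have : Function.Injective (fun u : Rgˣ => (u : Rg)) := fun u v h => Units.ext h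
    exact this.countable
  exact (Aff.equivProd (R := Rg)).injective.countable

/-- for every `k ≥ 1` some admissible topology has `x0` in the closure of `E k` -/
theorem part2 (k : ℕ) (hk : 1 ≤ k) : ∃ t : TopologicalSpace G,
    (@IsTopologicalGroup G t _ ∧ @T2Space G t ∧ @Precompact G _ t) ∧ x0 ∈ @closure G t (E k) := by
  obtain ⟨l, hl, hlp⟩ := Nat.exists_infinite_primes (2 ^ k + 2)
  have hpos : 1 ≤ 2 ^ k := Nat.one_le_two_pow
  have h2l : Nat.Coprime 2 l := (Nat.coprime_primes Nat.prime_two hlp).2 (by omega)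
  haveI : NeZero l := ⟨hlp.ne_zero⟩
  obtain ⟨t, ht, h⟩ := exists_top l h2l hlp.one_lt
  refine ⟨t, ht, h k ?_⟩
  have h2k : 2 ≤ 2 ^ k := by
    calc 2 = 2 ^ 1 := rfl
      _ ≤ 2 ^ k := Nat.pow_le_pow_right (by norm_num) hk
  have h3 : ((2 : ℤ) ^ k - 1) = ((2 ^ k - 1 : ℕ) : ℤ) := by
    push_cast [Nat.cast_sub hpos]; ring
  rw [h3, Nat.isCoprime_iff_coprime]
  apply Nat.Coprime.symm
  rw [Nat.Prime.coprime_iff_not_dvd hlp]
  intro hdvd
  have := Nat.le_of_dvd (by omega) hdvd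
  omega

end Pool.Agent.H156R3.PM
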