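import Pool.Agent.H156R3.Base

set_option autoImplicit false
set_option linter.all false

noncomputable section

namespace Pool.Agent.H156R3.Per

open Filter Topology Set

abbrev m (j : ℕ) : ℕ := 2 ^ j + 1

abbrev A := Π₀ j : ℕ, ZMod (m j)

abbrev C := (j : ℕ) → ZMod (m j)

def φ : A →+ C := DFinsupp.coeFnAddMonoidHom

theorem φ_inj : Function.Injective φ := DFunLike.coe_injective

def e (j : ℕ) : A := DFinsupp.single j 1

theorem e_apply (j k : ℕ) (h : j ≠ k) : e j k = 0 := by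
  simp [e, DFinsupp.single_apply, h]

theorem e_apply_self (j : ℕ) : e j j = 1 := by
  simp [e]

theorem exists_enum : ∃ a : ℕ → A, (∀ j i, j ≤ i → a j i = 0) ∧
    ∀ x : A, ∀ n, ∃ j, n ≤ j ∧ a j = x := by
  classical
  obtain ⟨f, hf⟩ := exists_surjective_nat A
  refine ⟨fun j => if ∀ i, j ≤ i → f (Nat.unpair j).1 i = 0 then f (Nat.unpair j).1 else 0,
    ?_, ?_⟩
  · intro j i hji
    dsimp only
    split_ifs with h
    · exact h i hji
    · simp
  · intro x n
    obtain ⟨k, hk⟩ := hf x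
    obtain ⟨N, hN⟩ : ∃ N, ∀ i, N ≤ i → x i = 0 := by
      refine ⟨x.support.sup id + 1, ?_⟩
      intro i hi
      by_contra hne
      have : i ∈ x.support := by simpa using hne
      have := Finset.le_sup (f := id) this
      simp only [id] at this
      omega
    refine ⟨Nat.pair k (max n N), ?_, ?_⟩
    · exact (le_max_left _ _).trans (Nat.right_le_pair _ _)
    · have h1 : (Nat.unpair (Nat.pair k (max n N))).1 = k := by simp
      dsimp only
      rw [h1, hk, if_pos]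
      intro i hi
      exact hN i ((le_max_right n N).trans ((Nat.right_le_pair _ _).trans hi))

def a : ℕ → A := exists_enum.choose

theorem a_apply (j i : ℕ) (h : j ≤ i) : a j i = 0 := exists_enum.choose_spec.1 j i h

theorem exists_a (x : A) (n : ℕ) : ∃ j, n ≤ j ∧ a j = x := exists_enum.choose_spec.2 x n

abbrev M := (ℕ →₀ ℕ) × (ℕ →₀ ℕ)

def Φ (p : M) : A := p.1.sum (fun j n => n • e j) + p.2.sum (fun j n => n • (e j - a j))

def cost (p : M) : ℝ :=
  p.1.sum (fun j n => (n : ℝ) * (1 / 2) ^ j) + p.2.sum (fun j n => (n : ℝ) * (1 / 2) ^ j)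

theorem Φ_add (p q : M) : Φ (p + q) = Φ p + Φ q := by
  unfold Φ
  rw [Prod.fst_add, Prod.snd_add, Finsupp.sum_add_index', Finsupp.sum_add_index']
  · abel
  · intro j; simp
  · intro j n n'; rw [add_smul]
  · intro j; simp
  · intro j n n'; rw [add_smul]

theorem cost_add (p q : M) : cost (p + q) = cost p + cost q := by
  unfold cost
  rw [Prod.fst_add, Prod.snd_add, Finsupp.sum_add_index', Finsupp.sum_add_index']
  · ring
  · intro j; simp
  · intro j n n'; push_cast; ring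
  · intro j; simp
  · intro j n n'; push_cast; ring

theorem Φ_zero : Φ 0 = 0 := by simp [Φ]

theorem cost_zero : cost 0 = 0 := by simp [cost]

theorem le_sum (f : ℕ →₀ ℕ) (k : ℕ) :
    (f k : ℝ) * (1 / 2) ^ k ≤ f.sum (fun j n => (n : ℝ) * (1 / 2) ^ j) := by
  by_cases hk : k ∈ f.support
  · exact Finset.single_le_sum (f := fun j => (f j : ℝ) * (1 / 2) ^ j)
      (fun j _ => mul_nonneg (Nat.cast_nonneg _) (pow_nonneg (by norm_num) _)) hk
  · have : f k = 0 := by simpa using hk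
    rw [this]
    simp only [Nat.cast_zero, zero_mul]
    exact Finset.sum_nonneg fun j _ => mul_nonneg (Nat.cast_nonneg _) (pow_nonneg (by norm_num) _)

theorem le_cost (p : M) (k : ℕ) : ((p.1 k + p.2 k : ℕ) : ℝ) * (1 / 2) ^ k ≤ cost p := by
  have h1 := le_sum p.1 k
  have h2 := le_sum p.2 k
  unfold cost
  push_cast
  linarith

theorem one_le_cost (p : M) (k : ℕ) (h : 2 ^ k ≤ p.1 k + p.2 k) : 1 ≤ cost p := by
  refine le_trans ?_ (le_cost p k)
  have h1 : ((2 : ℝ) ^ k) ≤ ((p.1 k + p.2 k : ℕ) : ℝ) := by exact_mod_cast h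
  have h2 : (1 : ℝ) = 2 ^ k * (1 / 2) ^ k := by
    rw [← mul_pow]; norm_num
  calc (1 : ℝ) = 2 ^ k * (1 / 2) ^ k := h2
    _ ≤ _ := mul_le_mul_of_nonneg_right h1 (pow_nonneg (by norm_num) _)

theorem Φ_apply (p : M) (k : ℕ) (h : ∀ j ∈ p.1.support ∪ p.2.support, j ≤ k) :
    Φ p k = ((p.1 k + p.2 k : ℕ) : ZMod (m k)) := by
  have h1 : (p.1.sum (fun j n => n • e j)) k = (p.1 k : ZMod (m k)) := by
    unfold Finsupp.sum
    rw [DFinsupp.finset_sum_apply, Finset.sum_eq_single k]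
    · simp [e_apply_self]
    · intro j _ hjk
      simp [e_apply j k hjk]
    · intro hk
      have : p.1 k = 0 := by simpa using hk
      simp [this]
  have h2 : (p.2.sum (fun j n => n • (e j - a j))) k = (p.2 k : ZMod (m k)) := by
    unfold Finsupp.sum
    rw [DFinsupp.finset_sum_apply, Finset.sum_eq_single k]
    · simp [e_apply_self, a_apply k k le_rfl]
    · intro j hj hjk
      have hjk' : j ≤ k := h j (Finset.mem_union_right _ hj)
      simp [e_apply j k hjk, a_apply j k hjk']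
    · intro hk
      have : p.2 k = 0 := by simpa using hk
      simp [this]
  unfold Φ
  rw [DFinsupp.add_apply, h1, h2]
  push_cast
  rfl

/-- the key lemma: the opposite of a generator is expensive -/
theorem key (i : ℕ) (p : M) (hp : Φ p = -e i) : 1 ≤ cost p := by
  classical
  let S : Finset ℕ := insert i (p.1.support ∪ p.2.support)
  have hS : S.Nonempty := ⟨i, Finset.mem_insert_self _ _⟩
  let K := S.max' hS
  have hK : ∀ j ∈ p.1.support ∪ p.2.support, j ≤ K := fun j hj =>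
    S.le_max' j (Finset.mem_insert_of_mem hj)
  have hev := Φ_apply p K hK
  rw [hp] at hev
  have hKS : K ∈ S := S.max'_mem hS
  by_cases hKi : K = i
  · rw [hKi] at hev
    simp only [DFinsupp.neg_apply, e_apply_self] at hev
    have h1 : ((p.1 i + p.2 i + 1 : ℕ) : ZMod (m i)) = 0 := by
      push_cast
      push_cast at hev
      rw [← hev]; ring
    rw [ZMod.natCast_eq_zero_iff] at h1
    have h2 := Nat.le_of_dvd (Nat.succ_pos _) h1
    apply one_le_cost p i
    simp only [m] at h2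
    omega
  · have hKsup : K ∈ p.1.support ∪ p.2.support := by
      rcases Finset.mem_insert.1 hKS with h | h
      · exact absurd h hKi
      · exact h
    rw [DFinsupp.neg_apply, e_apply i K (Ne.symm hKi), neg_zero] at hev
    have h1 := (ZMod.natCast_eq_zero_iff _ _).1 hev.symm
    have hpos : 0 < p.1 K + p.2 K := by
      rcases Finset.mem_union.1 hKsup with h | h
      · have : p.1 K ≠ 0 := by simpa using h
        omega
      · have : p.2 K ≠ 0 := by simpa using h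
        omega
    have h2 := Nat.le_of_dvd hpos h1
    apply one_le_cost p K
    simp only [m] at h2
    omega

def B (ε : ℝ) : Set A := {x | ∃ p : M, Φ p = x ∧ cost p < ε}

theorem B_mono {ε δ : ℝ} (h : ε ≤ δ) : B ε ⊆ B δ := by
  rintro x ⟨p, hp, hc⟩
  exact ⟨p, hp, hc.trans_le h⟩

theorem B_add {ε δ : ℝ} {x y : A} (hx : x ∈ B ε) (hy : y ∈ B δ) : x + y ∈ B (ε + δ) := by
  obtain ⟨p, hp, hpc⟩ := hx
  obtain ⟨q, hq, hqc⟩ := hy
  exact ⟨p + q, by rw [Φ_add, hp, hq], by rw [cost_add]; linarith⟩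

theorem zero_mem_B {ε : ℝ} (h : 0 < ε) : (0 : A) ∈ B ε := ⟨0, Φ_zero, by rwa [cost_zero]⟩

theorem e_mem_B {ε : ℝ} {j : ℕ} (h : (1 / 2 : ℝ) ^ j < ε) : e j ∈ B ε := by
  refine ⟨(Finsupp.single j 1, 0), ?_, ?_⟩
  · simp [Φ]
  · simp only [cost]
    simpa using h

theorem sub_mem_B {ε : ℝ} {j : ℕ} (h : (1 / 2 : ℝ) ^ j < ε) : e j - a j ∈ B ε := by
  refine ⟨(0, Finsupp.single j 1), ?_, ?_⟩
  · simp [Φ]
  · simp only [cost]
    simpa using h

theorem neg_e_notMem_B (i : ℕ) : -e i ∉ B 1 := by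
  rintro ⟨p, hp, hc⟩
  exact absurd (key i p hp) (not_le.2 hc)

/-- the filter of neighbourhoods of zero -/
def F : Filter A where
  sets := {U | ∃ ε : ℝ, 0 < ε ∧ B ε ⊆ U}
  univ_sets := ⟨1, one_pos, subset_univ _⟩
  sets_of_superset := by
    rintro U V ⟨ε, hε, h⟩ hUV
    exact ⟨ε, hε, h.trans hUV⟩
  inter_sets := by
    rintro U V ⟨ε, hε, h⟩ ⟨δ, hδ, h'⟩
    exact ⟨min ε δ, lt_min hε hδ, subset_inter ((B_mono (min_le_left _ _)).trans h)
      ((B_mono (min_le_right _ _)).trans h')⟩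

theorem mem_F {U : Set A} : U ∈ F ↔ ∃ ε : ℝ, 0 < ε ∧ B ε ⊆ U := Iff.rfl

theorem isParBase_F : IsParBase F where
  zero := by
    rintro U ⟨ε, hε, h⟩
    exact h (zero_mem_B hε)
  add := by
    rintro U ⟨ε, hε, h⟩
    refine ⟨B (ε / 2), ⟨ε / 2, by positivity, subset_rfl⟩, ?_⟩
    intro x hx y hy
    apply h
    have := B_add hx hy
    simpa using this

/-- a type copy of `A` carrying the paratopology -/
instance instTop : TopologicalSpace A := parTop F

theorem mem_nhds_A {x : A} {U : Set A} : U ∈ 𝓝 x ↔ ∃ ε : ℝ, 0 < ε ∧ ∀ y ∈ B ε, x + y ∈ U := by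
  rw [mem_nhds_parTop isParBase_F, mem_F]
  rfl

instance : ContinuousAdd A := continuousAdd_parTop isParBase_F

theorem exists_pow_lt {ε : ℝ} (hε : 0 < ε) : ∃ n : ℕ, ∀ j, n ≤ j → (1 / 2 : ℝ) ^ j < ε := by
  obtain ⟨n, hn⟩ := exists_pow_lt_of_lt_one hε (by norm_num : (1 / 2 : ℝ) < 1)
  refine ⟨n, fun j hj => lt_of_le_of_lt ?_ hn⟩
  exact pow_le_pow_of_le_one (by norm_num) (by norm_num) hj

theorem dense_e : Dense (range e) := by
  intro x
  rw [mem_closure_iff_nhds]
  intro U hU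
  obtain ⟨ε, hε, h⟩ := mem_nhds_A.1 hU
  obtain ⟨n, hn⟩ := exists_pow_lt hε
  obtain ⟨j, hj, haj⟩ := exists_a x n
  refine ⟨e j, ?_, j, rfl⟩
  have := h _ (sub_mem_B (hn j hj))
  rw [haj] at this
  simpa using this

theorem finite_diff (O : Set A) (hO : O ∈ 𝓝 (0 : A)) : (range e \ O).Finite := by
  obtain ⟨ε, hε, h⟩ := mem_nhds_A.1 hO
  obtain ⟨n, hn⟩ := exists_pow_lt hε
  refine ((finite_lt_nat n).image e).subset ?_
  rintro _ ⟨⟨j, rfl⟩, hj⟩
  refine ⟨j, ?_, rfl⟩
  by_contra hlt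
  apply hj
  have := h _ (e_mem_B (hn j (not_lt.1 hlt)))
  simpa using this

theorem tendsto_φe : Tendsto (fun n => φ (e n)) atTop (𝓝 0) := by
  rw [tendsto_pi_nhds]
  intro k
  refine tendsto_const_nhds.congr' ?_
  filter_upwards [eventually_gt_atTop k] with n hn
  exact (e_apply n k (by omega)).symm

theorem finite_φ (W : Set C) (hW : W ∈ 𝓝 (0 : C)) : {x ∈ range e | φ x ∉ W}.Finite := by
  obtain ⟨n, hn⟩ := eventually_atTop.1 (tendsto_φe hW)
  refine ((finite_lt_nat n).image e).subset ?_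
  rintro _ ⟨⟨j, rfl⟩, hj⟩
  refine ⟨j, ?_, rfl⟩
  by_contra hlt
  exact hj (hn j (not_lt.1 hlt))

theorem torsion (x : A) : ∃ k : ℕ, 1 ≤ k ∧ k • x = 0 := by
  classical
  refine ⟨∏ j ∈ x.support, m j, ?_, ?_⟩
  · exact Nat.one_le_iff_ne_zero.2 (Finset.prod_ne_zero_iff.2 fun j _ => by simp [m])
  · ext j
    rw [DFinsupp.nsmul_apply]
    by_cases hj : j ∈ x.support
    · have : ((∏ j ∈ x.support, m j : ℕ) : ZMod (m j)) = 0 :=
        (ZMod.natCast_eq_zero_iff _ _).2 (Finset.dvd_prod_of_mem _ hj)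
      rw [nsmul_eq_mul, this, zero_mul]
      rfl
    · have : x j = 0 := by simpa using hj
      rw [this, smul_zero]
      rfl

theorem neg_disc : ∃ O ∈ 𝓝 (0 : A), ∀ O' ∈ 𝓝 (0 : A), ∃ a ∈ O', -a ∉ O := by
  refine ⟨B 1, mem_nhds_A.2 ⟨1, one_pos, fun y hy => by simpa using hy⟩, ?_⟩
  intro O' hO'
  obtain ⟨ε, hε, h⟩ := mem_nhds_A.1 hO'
  obtain ⟨n, hn⟩ := exists_pow_lt hε
  refine ⟨e n, ?_, neg_e_notMem_B n⟩
  have := h _ (e_mem_B (hn n le_rfl))
  simpa using this

end Pool.Agent.H156R3.Per
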