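import Pool.Agent.H156R3.Per
import Pool.Agent.H156R3.Defs

set_option autoImplicit false
set_option linter.all false

noncomputable section

namespace Pool.Agent.H156R3

open Filter Topology Set Pointwise

theorem exists_nsmul_mem {K : Type} [AddCommGroup K] [TopologicalSpace K]
    [IsTopologicalAddGroup K] [CompactSpace K] (x : K) (W : Set K) (hW : W ∈ 𝓝 (0 : K)) :
    ∃ k : ℕ, 1 ≤ k ∧ k • x ∈ W := by
  let u : ℕ → K := fun n => n • x
  obtain ⟨y, _, hy⟩ := (isCompact_univ (X := K)).ultrafilter_le_nhds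
    ((hyperfilter ℕ).map u) (by simp)
  have hu : Tendsto u (hyperfilter ℕ) (𝓝 y) := hy
  have hsub : Tendsto (fun p : K × K => p.1 - p.2) (𝓝 y ×ˢ 𝓝 y) (𝓝 0) := by
    have : ContinuousAt (fun p : K × K => p.1 - p.2) (y, y) :=
      (continuous_fst.sub continuous_snd).continuousAt
    have h2 := this.tendsto
    rw [nhds_prod_eq] at h2
    simpa using h2
  obtain ⟨V1, hV1, V2, hV2, hV⟩ := mem_prod_iff.1 (hsub hW)
  have hmem : u ⁻¹' (V1 ∩ V2) ∈ (hyperfilter ℕ : Filter ℕ) := hu (inter_mem hV1 hV2)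
  have hinf : (u ⁻¹' (V1 ∩ V2)).Infinite := fun hfin => notMem_hyperfilter_of_finite hfin hmem
  obtain ⟨n1, hn1⟩ := hinf.nonempty
  obtain ⟨n2, hn2, hlt⟩ := hinf.exists_gt n1
  refine ⟨n2 - n1, by omega, ?_⟩
  have h1 := hV (mk_mem_prod hn2.1 hn1.2)
  simp only [mem_preimage, u] at h1
  have h3 : (n2 - n1) • x = n2 • x - n1 • x := by
    rw [sub_nsmul x hlt.le, sub_eq_add_neg]
  rw [h3]
  exact h1

theorem periodic_SG {J C A : Type} [AddCommGroup C] [AddCommGroup A] (φ : A →+ C)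
    [TopologicalSpace C] [TopologicalSpace A] [CompactSpace C] [IsTopologicalAddGroup C]
    (ht : ∀ a : A, ∃ k : ℕ, 1 ≤ k ∧ k • a = 0) (x : SG J C A φ) (U : Set (SG J C A φ))
    (hU : U ∈ 𝓝 (0 : SG J C A φ)) : ∃ n : ℕ, 1 ≤ n ∧ n • x ∈ U := by
  obtain ⟨W, hW, h0W, O, hO, hWO⟩ := (mem_nhds_SG φ).1 hU
  obtain ⟨k, hk, hka⟩ := ht (hh φ x)
  rw [map_zero] at h0W hO
  obtain ⟨l, hl, hlW⟩ := exists_nsmul_mem (k • tot φ x) W (hW.mem_nhds h0W)
  refine ⟨l * k, Nat.mul_pos hl hk, hWO _ ?_ ?_⟩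
  · rw [map_nsmul, mul_smul]; exact hlW
  · rw [map_nsmul, mul_smul, hka, smul_zero]; exact mem_of_mem_nhds hO

theorem precompact_SG {J C A : Type} [AddCommGroup C] [AddCommGroup A] (φ : A →+ C)
    [TopologicalSpace C] [TopologicalSpace A] [CompactSpace C] [IsTopologicalAddGroup C]
    [Countable A] (U : Set (SG J C A φ)) (hU : U ∈ 𝓝 (0 : SG J C A φ)) :
    ∃ F : Set (SG J C A φ), F.Countable ∧ ∀ g, ∃ f ∈ F, ∃ u ∈ U, f + u = g := by
  classical
  obtain ⟨W, hW, h0W, O, hO, hWO⟩ := (mem_nhds_SG φ).1 hU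
  rw [map_zero] at h0W hO
  obtain ⟨V, hV, hVV⟩ := exists_nhds_half_neg (hW.mem_nhds h0W)
  obtain ⟨t, ht⟩ := CompactSpace.elim_nhds_subcover (fun x : J → C => {y | y - x ∈ V}) (by
    intro x
    have : ContinuousAt (fun y : J → C => y - x) x := (continuous_id.sub continuous_const).continuousAt
    apply this
    simpa using hV)
  let P : (t × A) → SG J C A φ → Prop := fun q g => hh φ g = q.2 ∧ tot φ g - q.1.1 ∈ V
  let f : (t × A) → SG J C A φ := fun q => if h : ∃ g, P q g then h.choose else 0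
  refine ⟨range f, countable_range f, ?_⟩
  intro g
  have hg : tot φ g ∈ (⋃ x ∈ t, {y : J → C | y - x ∈ V}) := by rw [ht]; trivial
  simp only [mem_iUnion, mem_ofPred_eq, exists_prop] at hg
  obtain ⟨x, hxt, hx⟩ := hg
  let q : t × A := (⟨x, hxt⟩, hh φ g)
  have hP : ∃ g, P q g := ⟨g, rfl, hx⟩
  have hf : f q = hP.choose := by
    show (if h : ∃ g, P q g then h.choose else 0) = _
    rw [dif_pos hP]
  have hs := hP.choose_spec
  refine ⟨f q, ⟨q, rfl⟩, g - f q, ?_, by abel⟩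
  rw [hf]
  apply hWO
  · rw [map_sub]
    have h5 : (tot φ g - x) - (tot φ hP.choose - x) ∈ W := hVV _ hx _ hs.2
    rwa [sub_sub_sub_cancel_right] at h5
  · rw [map_sub, hs.1]
    simpa [q] using mem_of_mem_nhds hO

/-- the example, written multiplicatively -/
theorem example_periodic : ∃ (G : Type) (_ : CommGroup G) (_ : TopologicalSpace G),
    ContinuousMul G ∧ T2Space G ∧ TopologicallyPeriodic G ∧ CountablyPracompact G ∧
      Pseudocompact G ∧ LeftOmegaPrecompact G ∧ ¬ ContinuousInv G := by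
  let X := SG ℝ Per.C Per.A Per.φ
  have hadd : ContinuousAdd X := continuousAdd_SG Per.φ
  have ht2 : T2Space X := t2_SG Per.φ Per.φ_inj
  have hcp : CountablyPracompact X :=
    cp_SG Per.φ (range Per.e) Per.dense_e Per.finite_diff Per.finite_φ
  refine ⟨Multiplicative X, inferInstance, inferInstance, inferInstance, ?_, ?_, ?_, ?_, ?_, ?_⟩
  · exact ht2
  · intro x U hU
    exact periodic_SG Per.φ Per.torsion x U hU
  · exact hcp
  · exact CountablyPracompact.pseudocompact (X := Multiplicative X) hcp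
  · intro U hU
    obtain ⟨F, hF, h⟩ := precompact_SG Per.φ U hU
    refine ⟨F, hF, ?_⟩
    rw [eq_univ_iff_forall]
    intro g
    obtain ⟨f, hf, u, hu, hfu⟩ := h g
    exact ⟨f, hf, u, hu, hfu⟩
  · intro hinv
    exact not_continuousNeg_SG (J := ℝ) Per.φ Per.neg_disc hinv.continuous_inv

end Pool.Agent.H156R3
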